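import Mathlib
import Pool.Agent.helper47.B2.PO

/-!
# A continuous field of rank one tensors on a punctured space has a continuous square root
-/

set_option autoImplicit false

namespace Pool.Agent.helper25.B2

open Set Filter Topology

section LI

/-- two roots of the same tensor agree up to sign -/
theorem LI_sign {n : ℕ} {v w : Fin n → ℝ} (hw : w ≠ 0)
    (h : Matrix.vecMulVec v v = Matrix.vecMulVec w w) : v = w ∨ v = -w := by
  obtain ⟨i, hi⟩ := Function.ne_iff.1 hw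
  have hi' : w i ≠ 0 := hi
  have h1 : ∀ j k, v j * v k = w j * w k := by
    intro j k
    have := congrFun (congrFun h j) k
    simpa [Matrix.vecMulVec_apply] using this
  have h2 := h1 i i
  rcases mul_self_eq_mul_self_iff.1 h2 with h3 | h3
  · left
    funext j
    have h4 := h1 i j
    rw [h3] at h4
    exact mul_left_cancel₀ hi' h4
  · right
    funext j
    have h4 := h1 i j
    rw [h3] at h4
    have h5 : w i * v j = w i * (-w j) := by linarith
    exact mul_left_cancel₀ hi' h5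

theorem LI_mulVec {n : ℕ} (w v : Fin n → ℝ) :
    (Matrix.vecMulVec w w).mulVec v = (w ⬝ᵥ v) • w := by
  funext i
  simp only [Matrix.mulVec, Matrix.vecMulVec_apply, dotProduct, Pi.smul_apply, smul_eq_mul,
    Finset.sum_mul]
  refine Finset.sum_congr rfl fun j _ => by ring

/-- the two-sheeted covering of the square roots -/
theorem LI_covering {X : Type*} [TopologicalSpace X] {n : ℕ} {S : X → Matrix (Fin n) (Fin n) ℝ}
    (hS : Continuous S) (hrank : ∀ x, ∃ w : Fin n → ℝ, w ≠ 0 ∧ S x = Matrix.vecMulVec w w) :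
    IsCoveringMap (fun y : {y : X × (Fin n → ℝ) // y.2 ≠ 0 ∧ S y.1 = Matrix.vecMulVec y.2 y.2} =>
      y.1.1) := by
  intro x₀
  refine IsEvenlyCovered.to_isEvenlyCovered_preimage (I := ↥({1, -1} : Set ℝ)) ?_
  obtain ⟨w₀, hw₀, hx₀⟩ := hrank x₀
  set g : X → ℝ := fun x => w₀ ⬝ᵥ (S x).mulVec w₀ with hg
  have hgc : Continuous g := by
    rw [hg]
    exact Continuous.dotProduct continuous_const (hS.matrix_mulVec continuous_const)
  have hU : IsOpen {x | 0 < g x} := isOpen_lt continuous_const hgc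
  have hgval : ∀ x (w : Fin n → ℝ), S x = Matrix.vecMulVec w w → g x = (w ⬝ᵥ w₀) * (w ⬝ᵥ w₀) := by
    intro x w h
    simp only [hg]
    rw [h, LI_mulVec, dotProduct_smul, smul_eq_mul, dotProduct_comm w₀ w]
  have hsqrt : ∀ x (w : Fin n → ℝ), S x = Matrix.vecMulVec w w → √(g x) = |w ⬝ᵥ w₀| := by
    intro x w h
    rw [hgval x w h, Real.sqrt_mul_self_eq_abs]
  have hne : ∀ x (w : Fin n → ℝ), S x = Matrix.vecMulVec w w → 0 < g x → w ⬝ᵥ w₀ ≠ 0 := by
    intro x w h hx h0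
    rw [hgval x w h, h0] at hx
    simp at hx
  have hx0 : 0 < g x₀ := by
    rw [hgval x₀ w₀ hx₀]
    have h1 : 0 < w₀ ⬝ᵥ w₀ := by
      have h2 : w₀ ⬝ᵥ w₀ ≠ 0 := by
        rw [Ne, dotProduct_self_eq_zero]
        exact hw₀
      have h3 : 0 ≤ w₀ ⬝ᵥ w₀ := by
        simp only [dotProduct]
        exact Finset.sum_nonneg fun i _ => mul_self_nonneg _
      exact lt_of_le_of_ne h3 (Ne.symm h2)
    positivity
  have hfc : Continuous (fun y : {y : X × (Fin n → ℝ) //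
      y.2 ≠ 0 ∧ S y.1 = Matrix.vecMulVec y.2 y.2} => y.1.1) :=
    continuous_fst.comp continuous_subtype_val
  have hroot : ∀ x, 0 < g x → ∀ s : ℝ, s * s = 1 →
      S x = Matrix.vecMulVec (s • (√(g x))⁻¹ • (S x).mulVec w₀) (s • (√(g x))⁻¹ • (S x).mulVec w₀) ∧
      (s • (√(g x))⁻¹ • (S x).mulVec w₀) ⬝ᵥ w₀ = s * √(g x) := by
    intro x hx s hs
    obtain ⟨w, hw, hwS⟩ := hrank x
    have h1 := hne x w hwS hx
    have h2 : |w ⬝ᵥ w₀| ≠ 0 := abs_ne_zero.2 h1
    have h3 : |w ⬝ᵥ w₀| * |w ⬝ᵥ w₀| = (w ⬝ᵥ w₀) * (w ⬝ᵥ w₀) := abs_mul_abs_self _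
    have h4 : s • (√(g x))⁻¹ • (S x).mulVec w₀ = (s * (|w ⬝ᵥ w₀|⁻¹ * (w ⬝ᵥ w₀))) • w := by
      rw [hsqrt x w hwS, hwS, LI_mulVec, smul_smul, smul_smul, mul_assoc]
    have h5 : (s * (|w ⬝ᵥ w₀|⁻¹ * (w ⬝ᵥ w₀))) * (s * (|w ⬝ᵥ w₀|⁻¹ * (w ⬝ᵥ w₀))) = 1 := by
      have : (s * (|w ⬝ᵥ w₀|⁻¹ * (w ⬝ᵥ w₀))) * (s * (|w ⬝ᵥ w₀|⁻¹ * (w ⬝ᵥ w₀))) =
          (s * s) * (|w ⬝ᵥ w₀|⁻¹ * |w ⬝ᵥ w₀|⁻¹ * ((w ⬝ᵥ w₀) * (w ⬝ᵥ w₀))) := by ring
      rw [this, hs, ← h3]
      field_simp
    rw [h4]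
    constructor
    · rw [hwS]
      ext i j
      simp only [Matrix.vecMulVec_apply, Pi.smul_apply, smul_eq_mul]
      calc w i * w j = 1 * (w i * w j) := by ring
        _ = ((s * (|w ⬝ᵥ w₀|⁻¹ * (w ⬝ᵥ w₀))) * (s * (|w ⬝ᵥ w₀|⁻¹ * (w ⬝ᵥ w₀)))) * (w i * w j) := by
            rw [h5]
        _ = _ := by ring
    · rw [smul_dotProduct, smul_eq_mul, hsqrt x w hwS, mul_assoc, mul_assoc, ← h3]
      field_simp
  have hI : ∀ s : ↥({1, -1} : Set ℝ), (s : ℝ) * (s : ℝ) = 1 := by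
    rintro ⟨s, hs⟩
    rcases hs with h | h
    · simp [h]
    · rw [mem_singleton_iff] at h
      simp [h]
  have hsgn : ∀ r : ℝ, r ≠ 0 → r / |r| ∈ ({1, -1} : Set ℝ) := by
    intro r hr
    rcases lt_or_gt_of_ne hr with h | h
    · right
      rw [abs_of_neg h, mem_singleton_iff]
      field_simp
    · left
      rw [abs_of_pos h]
      field_simp
  refine ⟨inferInstance, {x | 0 < g x}, hx0, hU, hU.preimage hfc,
    { toFun := fun y => (⟨y.1.1.1, y.2⟩, ⟨(y.1.1.2 ⬝ᵥ w₀) / |y.1.1.2 ⬝ᵥ w₀|,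
        hsgn _ (hne _ _ y.1.2.2 y.2)⟩)
      invFun := fun q => ⟨⟨(q.1.1, (q.2 : ℝ) • (√(g q.1.1))⁻¹ • (S q.1.1).mulVec w₀), ?_, ?_⟩, ?_⟩
      left_inv := ?_
      right_inv := ?_
      continuous_toFun := ?_
      continuous_invFun := ?_ }, fun y => rfl⟩
  · intro h0
    have h1 := (hroot q.1.1 q.1.2 q.2 (hI q.2)).2
    simp only at h0
    rw [h0, zero_dotProduct] at h1
    have h2 : 0 < √(g q.1.1) := Real.sqrt_pos.2 q.1.2
    have h3 : (q.2 : ℝ) ≠ 0 := by
      intro h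
      have := hI q.2
      rw [h] at this
      simp at this
    exact (mul_ne_zero h3 h2.ne') h1.symm
  · exact (hroot q.1.1 q.1.2 q.2 (hI q.2)).1
  · exact q.1.2
  · rintro ⟨⟨⟨x, w⟩, hw, hwS⟩, hx⟩
    simp only [Subtype.mk.injEq, Prod.mk.injEq, true_and]
    simp only at hwS
    have hx' : 0 < g x := hx
    have h1 := hne x w hwS hx'
    have h2 : |w ⬝ᵥ w₀| ≠ 0 := abs_ne_zero.2 h1
    have h3 : |w ⬝ᵥ w₀| * |w ⬝ᵥ w₀| = (w ⬝ᵥ w₀) * (w ⬝ᵥ w₀) := abs_mul_abs_self _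
    rw [hsqrt x w hwS, hwS, LI_mulVec, smul_smul, smul_smul]
    have : (w ⬝ᵥ w₀) / |w ⬝ᵥ w₀| * |w ⬝ᵥ w₀|⁻¹ * (w ⬝ᵥ w₀) = 1 := by
      have : (w ⬝ᵥ w₀) / |w ⬝ᵥ w₀| * |w ⬝ᵥ w₀|⁻¹ * (w ⬝ᵥ w₀) =
          (|w ⬝ᵥ w₀|⁻¹ * |w ⬝ᵥ w₀|⁻¹) * ((w ⬝ᵥ w₀) * (w ⬝ᵥ w₀)) := by ring
      rw [this, ← h3]
      field_simp
    rw [this, one_smul]
  · rintro ⟨⟨x, hx⟩, s⟩
    have hx' : 0 < g x := hx
    have h1 := (hroot x hx' s (hI s)).2
    have h2 : 0 < √(g x) := Real.sqrt_pos.2 hx'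
    refine Prod.ext rfl (Subtype.ext ?_)
    show ((s : ℝ) • (√(g x))⁻¹ • (S x).mulVec w₀) ⬝ᵥ w₀ /
      |((s : ℝ) • (√(g x))⁻¹ • (S x).mulVec w₀) ⬝ᵥ w₀| = s
    rw [h1, abs_mul, abs_of_pos h2]
    have h3 : |(s : ℝ)| = 1 := by
      have := hI s
      rcases mul_self_eq_one_iff.1 this with h | h
      · rw [h]; simp
      · rw [h]; simp
    rw [h3]
    field_simp
  · refine Continuous.prodMk ?_ ?_
    · exact (hfc.comp continuous_subtype_val).subtype_mk _
    · refine Continuous.subtype_mk ?_ _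
      have hc : Continuous fun y : ↥((fun y : {y : X × (Fin n → ℝ) //
          y.2 ≠ 0 ∧ S y.1 = Matrix.vecMulVec y.2 y.2} => y.1.1) ⁻¹' {x | 0 < g x}) =>
          (y.1.1.2 ⬝ᵥ w₀) := by
        refine Continuous.dotProduct ?_ continuous_const
        exact continuous_snd.comp (continuous_subtype_val.comp continuous_subtype_val)
      exact hc.div hc.abs fun y => abs_ne_zero.2 (hne _ _ y.1.2.2 y.2)
  · refine Continuous.subtype_mk (Continuous.subtype_mk ?_ _) _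
    refine Continuous.prodMk (continuous_subtype_val.comp continuous_fst) ?_
    have h1 : Continuous fun q : ↥{x | 0 < g x} × ↥({1, -1} : Set ℝ) => (q.1 : X) :=
      continuous_subtype_val.comp continuous_fst
    have h2 : Continuous fun q : ↥{x | 0 < g x} × ↥({1, -1} : Set ℝ) => (√(g q.1))⁻¹ :=
      ((hgc.comp h1).sqrt).inv₀ fun q => (Real.sqrt_pos.2 q.1.2).ne'
    have h3 : Continuous fun q : ↥{x | 0 < g x} × ↥({1, -1} : Set ℝ) =>
        (S (q.1 : X)).mulVec w₀ := (hS.comp h1).matrix_mulVec continuous_const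
    exact (continuous_subtype_val.comp continuous_snd).smul (h2.smul h3)

/-- lifting on a star-shaped open set -/
theorem LI_star {E : Type*} [NormedAddCommGroup E] [NormedSpace ℝ E] {n : ℕ}
    {S : E → Matrix (Fin n) (Fin n) ℝ} {U : Set E} (hU : IsOpen U) {c : E} (hcU : c ∈ U)
    (hc : ∀ x ∈ U, segment ℝ c x ⊆ U) (hS : ContinuousOn S U)
    (hrank : ∀ x ∈ U, ∃ w : Fin n → ℝ, w ≠ 0 ∧ S x = Matrix.vecMulVec w w) :
    ∃ w : E → Fin n → ℝ, ContinuousOn w U ∧
      ∀ x ∈ U, w x ≠ 0 ∧ S x = Matrix.vecMulVec (w x) (w x) := by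
  classical
  have hstar : StarConvex ℝ c U := starConvex_iff_segment_subset.2 fun x hx => hc x hx
  have : ContractibleSpace U := hstar.contractibleSpace ⟨c, hcU⟩
  have : LocallyPathConnectedSpace U := hU.locallyPathConnectedSpace
  have hcov := LI_covering (X := U) (S := fun x : U => S x)
    (continuousOn_iff_continuous_domRestrict.1 hS) (fun x => hrank x x.2)
  obtain ⟨w₀, hw₀, hw₀S⟩ := hrank c hcU
  obtain ⟨F, ⟨-, hF⟩, -⟩ := hcov.existsUnique_continuousMap_lifts (f := ContinuousMap.id U)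
    (a₀ := ⟨c, hcU⟩) (e₀ := ⟨(⟨c, hcU⟩, w₀), hw₀, hw₀S⟩) rfl
  have hF' : ∀ x : U, (F x).1.1 = x := fun x => congrFun hF x
  refine ⟨fun x => if h : x ∈ U then (F ⟨x, h⟩).1.2 else 0, ?_, ?_⟩
  · rw [continuousOn_iff_continuous_domRestrict]
    have : U.domRestrict (fun x => if h : x ∈ U then (F ⟨x, h⟩).1.2 else 0) =
        fun x : U => (F x).1.2 := by
      funext x
      simp [Set.domRestrict]
    rw [this]
    exact continuous_snd.comp (continuous_subtype_val.comp F.continuous)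
  · intro x hx
    simp only [hx, dif_pos]
    have h1 := (F ⟨x, hx⟩).2
    rw [hF' ⟨x, hx⟩] at h1
    exact h1

/-- LI: a continuous field of rank one tensors `w ⊗ w`, `w ≠ 0`, has a continuous square root. -/
theorem exists_lift_punctured {E : Type*} [NormedAddCommGroup E] [InnerProductSpace ℝ E]
    [FiniteDimensional ℝ E] (hE : 2 < Module.finrank ℝ E) {n : ℕ} {S : E → Matrix (Fin n) (Fin n) ℝ}
    (hS : ContinuousOn S {x | x ≠ 0})
    (hrank : ∀ x : E, x ≠ 0 → ∃ w : Fin n → ℝ, w ≠ 0 ∧ S x = Matrix.vecMulVec w w) :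
    ∃ w : E → Fin n → ℝ, ContinuousOn w {x | x ≠ 0} ∧
      ∀ x : E, x ≠ 0 → w x ≠ 0 ∧ S x = Matrix.vecMulVec (w x) (w x) := by
  classical
  have hnt : Nontrivial E := Module.nontrivial_of_finrank_pos (R := ℝ) (by omega)
  obtain ⟨e, he⟩ := exists_norm_eq E (zero_le_one' ℝ)
  have he' : ‖-e‖ = 1 := by rw [norm_neg]; exact he
  have hmem : ∀ e : E, ‖e‖ = 1 → e ∈ PO_U e := by
    intro e he h
    have hee : inner ℝ e e = (1 : ℝ) := by rw [real_inner_self_eq_norm_sq, he]; norm_num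
    have := h.2
    rw [hee] at this
    linarith
  have hsub1 : PO_U e ⊆ {x : E | x ≠ 0} := fun x hx => PO_union.2 (Or.inl hx)
  have hsub2 : PO_U (-e) ⊆ {x : E | x ≠ 0} := fun x hx => (PO_union (e := e)).2 (Or.inr hx)
  obtain ⟨w₁, hw₁c, hw₁⟩ := LI_star (PO_U_open e) (hmem e he) (PO_U_star he) (hS.mono hsub1)
    (fun x hx => hrank x (hsub1 hx))
  obtain ⟨w₂, hw₂c, hw₂⟩ := LI_star (PO_U_open (-e)) (hmem (-e) he') (PO_U_star he')
    (hS.mono hsub2) (fun x hx => hrank x (hsub2 hx))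
  have hconn : IsPreconnected (PO_U e ∩ PO_U (-e)) := by
    rw [PO_inter he]
    refine (isConnected_compl_of_one_lt_codim ?_).isPreconnected
    have h1 : Module.finrank ℝ (Submodule.span ℝ {e}) ≤ 1 := by
      have := finrank_span_le_card (R := ℝ) ({e} : Set E)
      simpa using this
    have h2 := Submodule.finrank_quotient_add_finrank (Submodule.span ℝ {e} : Submodule ℝ E)
    rw [← Module.finrank_eq_rank]
    have : 1 < Module.finrank ℝ (E ⧸ (Submodule.span ℝ {e} : Submodule ℝ E)) := by omega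
    exact_mod_cast this
  have hposself : ∀ w : Fin n → ℝ, w ≠ 0 → 0 < w ⬝ᵥ w := by
    intro w hw
    have h2 : w ⬝ᵥ w ≠ 0 := by
      rw [Ne, dotProduct_self_eq_zero]
      exact hw
    have h3 : 0 ≤ w ⬝ᵥ w := by
      simp only [dotProduct]
      exact Finset.sum_nonneg fun i _ => mul_self_nonneg _
    exact lt_of_le_of_ne h3 (Ne.symm h2)
  -- the sign
  have hdich : ∀ x ∈ PO_U e ∩ PO_U (-e), w₂ x = w₁ x ∨ w₂ x = -w₁ x := by
    intro x hx
    exact LI_sign (hw₁ x hx.1).1 ((hw₂ x hx.2).2.symm.trans (hw₁ x hx.1).2)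
  have hqc : ContinuousOn (fun x => w₁ x ⬝ᵥ w₂ x) (PO_U e ∩ PO_U (-e)) := by
    simp only [dotProduct]
    refine continuousOn_finsetSum _ fun i _ => ?_
    exact (((continuousOn_pi.1 hw₁c) i).mono inter_subset_left).mul
      (((continuousOn_pi.1 hw₂c) i).mono inter_subset_right)
  have hq0 : ∀ x ∈ PO_U e ∩ PO_U (-e), w₁ x ⬝ᵥ w₂ x ≠ 0 := by
    intro x hx
    have h1 := hposself _ (hw₁ x hx.1).1
    rcases hdich x hx with h | h
    · rw [h]; exact h1.ne'
    · rw [h, dotProduct_neg]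
      exact neg_ne_zero.2 h1.ne'
  have hglob : ∃ s : ℝ, s * s = 1 ∧ ∀ x ∈ PO_U e ∩ PO_U (-e), w₁ x = s • w₂ x := by
    by_cases hpos : ∃ x ∈ PO_U e ∩ PO_U (-e), 0 < w₁ x ⬝ᵥ w₂ x
    · refine ⟨1, by norm_num, fun x hx => ?_⟩
      rw [one_smul]
      rcases hdich x hx with h | h
      · exact h.symm
      · exfalso
        obtain ⟨y, hy, hy0⟩ := hpos
        have hx0 : w₁ x ⬝ᵥ w₂ x < 0 := by
          rw [h, dotProduct_neg]
          exact neg_neg_of_pos (hposself _ (hw₁ x hx.1).1)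
        obtain ⟨z, hz, hz0⟩ := hconn.intermediate_value hx hy hqc ⟨hx0.le, hy0.le⟩
        exact hq0 z hz hz0
    · push Not at hpos
      refine ⟨-1, by norm_num, fun x hx => ?_⟩
      rw [neg_one_smul]
      rcases hdich x hx with h | h
      · exfalso
        have := hpos x hx
        rw [h] at this
        exact absurd (hposself _ (hw₁ x hx.1).1) (not_lt.2 this)
      · rw [h, neg_neg]
  obtain ⟨s, hs, hsw⟩ := hglob
  have hw₂' : ∀ x ∈ PO_U (-e), s • w₂ x ≠ 0 ∧ S x = Matrix.vecMulVec (s • w₂ x) (s • w₂ x) := by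
    intro x hx
    have hs0 : s ≠ 0 := by
      rintro rfl
      simp at hs
    refine ⟨smul_ne_zero hs0 (hw₂ x hx).1, ?_⟩
    conv_lhs => rw [(hw₂ x hx).2]
    ext i j
    simp only [Matrix.vecMulVec_apply, Pi.smul_apply, smul_eq_mul]
    calc w₂ x i * w₂ x j = 1 * (w₂ x i * w₂ x j) := by ring
      _ = (s * s) * (w₂ x i * w₂ x j) := by rw [hs]
      _ = _ := by ring
  refine ⟨fun x => if x ∈ PO_U e then w₁ x else s • w₂ x, ?_, ?_⟩
  · intro x hx
    refine ContinuousAt.continuousWithinAt ?_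
    rcases (PO_union (e := e)).1 hx with h | h
    · refine (hw₁c.continuousAt ((PO_U_open e).mem_nhds h)).congr ?_
      filter_upwards [(PO_U_open e).mem_nhds h] with y hy
      rw [if_pos hy]
    · refine ((hw₂c.continuousAt ((PO_U_open (-e)).mem_nhds h)).const_smul s).congr ?_
      filter_upwards [(PO_U_open (-e)).mem_nhds h] with y hy
      by_cases hy' : y ∈ PO_U e
      · rw [if_pos hy']
        exact (hsw y ⟨hy', hy⟩).symm
      · rw [if_neg hy']
        rfl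
  · intro x hx
    by_cases h : x ∈ PO_U e
    · simp only [h, if_true]
      exact hw₁ x h
    · simp only [h, if_false]
      rcases (PO_union (e := e)).1 hx with h' | h'
      · exact absurd h' h
      · exact hw₂' x h'

/-- LI': a continuous square root of a smooth rank one field is smooth. -/
theorem contDiffAt_lift {E : Type*} [NormedAddCommGroup E] [NormedSpace ℝ E] {n : ℕ} {k : WithTop ℕ∞}
    {S : E → Matrix (Fin n) (Fin n) ℝ} {w : E → Fin n → ℝ} {x : E}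
    (hw : ContinuousAt w x) (hw0 : w x ≠ 0) (hS : ∀ i j, ContDiffAt ℝ k (fun y => S y i j) x)
    (h : ∀ᶠ y in 𝓝 x, S y = Matrix.vecMulVec (w y) (w y)) :
    ContDiffAt ℝ k w x := by
  obtain ⟨i, hi⟩ := Function.ne_iff.1 hw0
  have hi' : w x i ≠ 0 := hi
  have hent : ∀ᶠ y in 𝓝 x, ∀ a b, S y a b = w y a * w y b := by
    filter_upwards [h] with y hy a b
    rw [hy, Matrix.vecMulVec_apply]
  have hwi : ContinuousAt (fun y => w y i) x := (continuous_apply i).continuousAt.comp hw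
  -- the component `i`
  have hSx : S x i i ≠ 0 := by
    rw [hent.self_of_nhds i i]
    exact mul_ne_zero hi' hi'
  have hci : ContDiffAt ℝ k (fun y => w y i) x := by
    have hsq : ContDiffAt ℝ k (fun y => √(S y i i)) x := (hS i i).sqrt hSx
    rcases lt_or_gt_of_ne hi' with hlt | hgt
    · refine hsq.neg.congr_of_eventuallyEq ?_
      filter_upwards [hent, hwi.eventually (gt_mem_nhds hlt)] with y hy hy0
      rw [hy i i, Real.sqrt_mul_self_eq_abs, abs_of_neg hy0, neg_neg]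
    · refine hsq.congr_of_eventuallyEq ?_
      filter_upwards [hent, hwi.eventually (lt_mem_nhds hgt)] with y hy hy0
      rw [hy i i, Real.sqrt_mul_self_eq_abs, abs_of_pos hy0]
  rw [contDiffAt_pi]
  intro j
  refine ((hS i j).div hci hi').congr_of_eventuallyEq ?_
  filter_upwards [hent, hwi.eventually_ne hi'] with y hy hy0
  show w y j = S y i j / w y i
  rw [hy i j]
  field_simp

end LI

end Pool.Agent.helper25.B2
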