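import Mathlib
import Pool.Agent.helper68.B2.Defs
import Pool.Agent.helper31.B2.B0a
import Pool.Agent.helper98.B2.B0b
import Pool.Agent.helper98.B2.GA

/-!
# Curvature and the Ricci identities
-/

set_option autoImplicit false

namespace Pool.Agent.helper68.B2

open scoped ContDiff Topology Matrix
open Matrix Set

theorem GB_two_le : (2 : WithTop ℕ∞) ≤ ∞ := by
  norm_cast

theorem GB_Dv_congr {F : Type*} [NormedAddCommGroup F] [NormedSpace ℝ F] {f g : E4 → F} {x : E4}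
    (hx : x ≠ 0) (h : ∀ y, y ≠ 0 → f y = g y) (v : V3) : Dv f v x = Dv g v x := by
  unfold Dv
  have : f =ᶠ[𝓝 x] g := by
    filter_upwards [isOpen_ne.mem_nhds hx] with y hy using h y hy
  rw [this.fderiv_eq]

namespace Geo
variable (S : Geo)

/-- curvature `R(E_i, E_j)` -/
noncomputable def Riem (i j : Fin 3) (x : E4) : M3 :=
  Dv (S.Γ j) (ee i) x - Dv (S.Γ i) (ee j) x + (S.Γ i x * S.Γ j x - S.Γ j x * S.Γ i x)
    - ∑ k, (2 * eps i j k) • S.Γ k x

theorem GB_Gam (i : Fin 3) (x : E4) : S.Gam (ee i) x = S.Γ i x := by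
  unfold Gam
  rw [Finset.sum_eq_single i]
  · simp [ee]
  · intro k _ hk
    simp [ee, Pi.single_apply, hk]
  · simp

theorem GB_nabE (A : E4 → M3) (i : Fin 3) (x : E4) :
    S.nabE A (ee i) x = Dv A (ee i) x + (S.Γ i x * A x - A x * S.Γ i x) := by
  unfold nabE
  rw [GB_Gam]

theorem GB_nab (V : E4 → V3) (i : Fin 3) (x : E4) :
    S.nab V (ee i) x = Dv V (ee i) x + S.Γ i x *ᵥ V x := by
  unfold nab
  rw [GB_Gam]

theorem GB_dT {A : E4 → M3} (hA : Sm A) {x : E4} (hx : x ≠ 0) :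
    DifferentiableAt ℝ (fun y => (A y)ᵀ) x := by
  have h1 := contDiffAt_entries.1 (hA.contDiffAt hx)
  have h2 : ContDiffAt ℝ ∞ (fun y => (A y)ᵀ) x := contDiffAt_entries.2 fun i j => h1 j i
  exact h2.differentiableAt (by simp)

theorem GB_metric_sum {x : E4} (hx : x ≠ 0) (c : Fin 3 → ℝ) :
    ∑ k, c k • Dv S.G (ee k) x =
      (∑ k, c k • S.Γ k x)ᵀ * S.G x + S.G x * ∑ k, c k • S.Γ k x := by
  rw [Matrix.transpose_sum, Finset.sum_mul, Finset.mul_sum, ← Finset.sum_add_distrib]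
  refine Finset.sum_congr rfl fun k _ => ?_
  rw [S.metric x hx k, Matrix.transpose_smul, smul_add, Matrix.smul_mul, Matrix.mul_smul]

theorem GB_DDG {x : E4} (hx : x ≠ 0) (i j : Fin 3) :
    Dv (fun y => Dv S.G (ee j) y) (ee i) x =
      ((Dv (S.Γ j) (ee i) x)ᵀ * S.G x + (S.Γ j x)ᵀ * ((S.Γ i x)ᵀ * S.G x + S.G x * S.Γ i x)) +
      (((S.Γ i x)ᵀ * S.G x + S.G x * S.Γ i x) * S.Γ j x + S.G x * Dv (S.Γ j) (ee i) x) := by
  have hG : DifferentiableAt ℝ S.G x := S.smG.differentiableAt hx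
  have hΓ : DifferentiableAt ℝ (S.Γ j) x := (S.smΓ j).differentiableAt hx
  have hT : DifferentiableAt ℝ (fun y => (S.Γ j y)ᵀ) x := GB_dT (S.smΓ j) hx
  rw [GB_Dv_congr (g := fun y => (S.Γ j y)ᵀ * S.G y + S.G y * S.Γ j y) hx
    (fun y hy => S.metric y hy j)]
  have hadd := Dv_add (f := fun y => (S.Γ j y)ᵀ * S.G y) (g := fun y => S.G y * S.Γ j y)
    (x := x) (v := ee i) (hT.mul hG) (hG.mul hΓ)
  rw [hadd, Dv_mul hT hG, Dv_mul hG hΓ, Dv_transpose hΓ, S.metric x hx i]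

theorem Riem_skew {x : E4} (hx : x ≠ 0) (i j : Fin 3) :
    (S.G x * S.Riem i j x)ᵀ = -(S.G x * S.Riem i j x) := by
  have hc := commutator ((S.smG.contDiffAt hx).of_le GB_two_le :
    ContDiffAt ℝ 2 S.G x) i j
  rw [GB_DDG S hx i j, GB_DDG S hx j i, GB_metric_sum S hx] at hc
  rw [Matrix.transpose_mul, S.symm x hx, eq_neg_iff_add_eq_zero, Riem]
  rw [← sub_eq_zero] at hc
  rw [← hc]
  simp only [Matrix.transpose_sub, Matrix.transpose_add, Matrix.transpose_mul]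
  noncomm_ring

/-- linearity of `od` -/
theorem GB_od_sub (x : E4) (u u' w : V3) : S.od x (u - u') w = S.od x u w - S.od x u' w := by
  ext a b
  simp only [od, odot, Matrix.add_apply, Matrix.sub_apply, Matrix.vecMulVec_apply, Pi.sub_apply,
    Matrix.mulVec_sub]
  ring

theorem GB_od_add (x : E4) (u u' w : V3) : S.od x (u + u') w = S.od x u w + S.od x u' w := by
  ext a b
  simp only [od, odot, Matrix.add_apply, Matrix.vecMulVec_apply, Pi.add_apply,
    Matrix.mulVec_add]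
  ring

theorem GB_od_smul (x : E4) (c : ℝ) (u w : V3) : S.od x (c • u) w = c • S.od x u w := by
  ext a b
  simp only [od, odot, Matrix.add_apply, Matrix.smul_apply, Matrix.vecMulVec_apply, Pi.smul_apply,
    Matrix.mulVec_smul, smul_eq_mul]
  ring

theorem GB_od_sum (x : E4) (c : Fin 3 → ℝ) (w : V3) :
    S.od x (∑ k, c k • ee k) w = ∑ k, c k • S.od x (ee k) w := by
  simp only [Fin.sum_univ_three, GB_od_add, GB_od_smul]

theorem GB_torsion {x : E4} (hx : x ≠ 0) (i j : Fin 3) :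
    S.Γ i x *ᵥ ee j - S.Γ j x *ᵥ ee i = ∑ k, (2 * eps i j k) • ee k := by
  funext k
  have h := S.torsion x hx i j k
  rw [Finset.sum_apply, Pi.sub_apply]
  rw [Finset.sum_eq_single k]
  · simp only [ee, Matrix.mulVec_single_one, Matrix.col_apply, Pi.smul_apply, Pi.single_eq_same,
      smul_eq_mul, mul_one]
    exact h
  · intro l _ hl
    simp [ee, Pi.single_apply, Ne.symm hl]
  · simp

/-- covariant derivative of `e_j ⊙ lam` -/
theorem GB_nabE_od {x : E4} (hx : x ≠ 0) (i j : Fin 3) :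
    S.nabE (fun y => S.od y (ee j) (S.lam y)) (ee i) x =
      S.od x (S.Γ i x *ᵥ ee j) (S.lam x) + S.od x (ee j) (S.Lam x *ᵥ ee i) := by
  have hG : ContDiffAt ℝ ∞ S.G x := S.smG.contDiffAt hx
  have hl : ContDiffAt ℝ ∞ S.lam x := S.smlam.contDiffAt hx
  have hc : ContDiffAt ℝ ∞ (fun _ : E4 => ee j) x := contDiffAt_const
  have h1 : DifferentiableAt ℝ (fun y => vecMulVec (ee j) (S.G y *ᵥ S.lam y)) x :=
    (contDiffAt_vecMulVec hc (contDiffAt_mulVec hG hl)).differentiableAt (by simp)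
  have h2 : DifferentiableAt ℝ (fun y => vecMulVec (S.lam y) (S.G y *ᵥ ee j)) x :=
    (contDiffAt_vecMulVec hl (contDiffAt_mulVec hG hc)).differentiableAt (by simp)
  have hld : DifferentiableAt ℝ S.lam x := hl.differentiableAt (by simp)
  have hcd : DifferentiableAt ℝ (fun _ : E4 => ee j) x := differentiableAt_const _
  have e : (fun y => S.od y (ee j) (S.lam y)) = fun y =>
      vecMulVec (ee j) (S.G y *ᵥ S.lam y) + vecMulVec (S.lam y) (S.G y *ᵥ ee j) := rfl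
  have hsum : S.nabE (fun y => S.od y (ee j) (S.lam y)) (ee i) x =
      S.nabE (fun y => vecMulVec (ee j) (S.G y *ᵥ S.lam y)) (ee i) x +
      S.nabE (fun y => vecMulVec (S.lam y) (S.G y *ᵥ ee j)) (ee i) x := by
    rw [e]
    unfold nabE
    rw [Dv_add h1 h2]
    noncomm_ring
  have hn1 : S.nab (fun _ : E4 => ee j) (ee i) x = S.Γ i x *ᵥ ee j := by
    rw [GB_nab, Dv_const, zero_add]
  have hn2 : S.nab S.lam (ee i) x = S.Lam x *ᵥ ee i := (S.Lam_mulVec x (ee i)).symm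
  have d1 := S.nabE_dyad hx hcd hld (ee i)
  have d2 := S.nabE_dyad hx hld hcd (ee i)
  rw [hsum, d1, d2, hn1, hn2]
  simp only [od, odot]
  abel

theorem GB_nabE_nabE {x : E4} (hx : x ≠ 0) (i j : Fin 3) :
    S.nabE (fun y => S.nabE S.L (ee j) y) (ee i) x =
      (Dv (fun y => Dv S.L (ee j) y) (ee i) x +
        ((Dv (S.Γ j) (ee i) x * S.L x + S.Γ j x * Dv S.L (ee i) x) -
          (Dv S.L (ee i) x * S.Γ j x + S.L x * Dv (S.Γ j) (ee i) x))) +
      (S.Γ i x * (Dv S.L (ee j) x + (S.Γ j x * S.L x - S.L x * S.Γ j x)) -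
        (Dv S.L (ee j) x + (S.Γ j x * S.L x - S.L x * S.Γ j x)) * S.Γ i x) := by
  have hL : DifferentiableAt ℝ S.L x := S.smL.differentiableAt hx
  have hΓ : DifferentiableAt ℝ (S.Γ j) x := (S.smΓ j).differentiableAt hx
  have hD : DifferentiableAt ℝ (fun y => Dv S.L (ee j) y) x :=
    (S.smL.Dv (ee j)).differentiableAt hx
  rw [GB_nabE]
  have e : (fun y => S.nabE S.L (ee j) y) =
      fun y => Dv S.L (ee j) y + (S.Γ j y * S.L y - S.L y * S.Γ j y) := by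
    funext y
    rw [GB_nabE]
  have hadd := Dv_add (f := fun y => Dv S.L (ee j) y)
    (g := fun y => S.Γ j y * S.L y - S.L y * S.Γ j y) (x := x) (v := ee i) hD
    ((hΓ.mul hL).sub (hL.mul hΓ))
  have hsub := Dv_sub (f := fun y => S.Γ j y * S.L y) (g := fun y => S.L y * S.Γ j y)
    (x := x) (v := ee i) (hΓ.mul hL) (hL.mul hΓ)
  rw [e, hadd, hsub, Dv_mul hΓ hL, Dv_mul hL hΓ, GB_nabE S S.L j x]

theorem GB_nabE_congr {A B : E4 → M3} {x : E4} (hx : x ≠ 0) (h : ∀ y, y ≠ 0 → A y = B y)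
    (v : V3) : S.nabE A v x = S.nabE B v x := by
  unfold nabE
  rw [GB_Dv_congr hx h, h x hx]

theorem ricci_L {x : E4} (hx : x ≠ 0) (i j : Fin 3) :
    S.Riem i j x * S.L x - S.L x * S.Riem i j x
      = S.od x (ee j) (S.Lam x *ᵥ ee i) - S.od x (ee i) (S.Lam x *ᵥ ee j) := by
  have hc := commutator ((S.smL.contDiffAt hx).of_le GB_two_le :
    ContDiffAt ℝ 2 S.L x) i j
  have hT : ∀ k y, y ≠ 0 → S.nabE S.L (ee k) y = S.od y (ee k) (S.lam y) := by
    intro k y hy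
    rw [GB_nabE]
    exact S.main y hy k
  have h1 := S.GB_nabE_congr hx (hT j) (ee i)
  have h2 := S.GB_nabE_congr hx (hT i) (ee j)
  rw [GB_nabE_nabE S hx, GB_nabE_od S hx] at h1 h2
  have h3 : ∑ k, (2 * eps i j k) • S.od x (ee k) (S.lam x) =
      S.od x (S.Γ i x *ᵥ ee j) (S.lam x) - S.od x (S.Γ j x *ᵥ ee i) (S.lam x) := by
    rw [← GB_od_sub, GB_torsion S hx, GB_od_sum]
  have h4 : ∑ k, (2 * eps i j k) • S.od x (ee k) (S.lam x) =
      ∑ k, (2 * eps i j k) • Dv S.L (ee k) x +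
        ((∑ k, (2 * eps i j k) • S.Γ k x) * S.L x - S.L x * ∑ k, (2 * eps i j k) • S.Γ k x) := by
    rw [Finset.sum_mul, Finset.mul_sum, ← Finset.sum_sub_distrib, ← Finset.sum_add_distrib]
    refine Finset.sum_congr rfl fun k _ => ?_
    rw [← hT k x hx, GB_nabE, smul_add, smul_sub, Matrix.smul_mul, Matrix.mul_smul]
  rw [Riem]
  have e : S.od x (ee j) (S.Lam x *ᵥ ee i) - S.od x (ee i) (S.Lam x *ᵥ ee j) =
      (S.od x (S.Γ i x *ᵥ ee j) (S.lam x) + S.od x (ee j) (S.Lam x *ᵥ ee i)) -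
      (S.od x (S.Γ j x *ᵥ ee i) (S.lam x) + S.od x (ee i) (S.Lam x *ᵥ ee j)) -
      (S.od x (S.Γ i x *ᵥ ee j) (S.lam x) - S.od x (S.Γ j x *ᵥ ee i) (S.lam x)) := by abel
  rw [e, ← h1, ← h2, ← h3, h4, ← hc]
  noncomm_ring

theorem GB_nab_Lam {x : E4} (hx : x ≠ 0) (i j : Fin 3) :
    S.nabE S.Lam (ee i) x *ᵥ ee j + S.Lam x *ᵥ (S.Γ i x *ᵥ ee j) =
      (Dv (fun y => Dv S.lam (ee j) y) (ee i) x +
        (Dv (S.Γ j) (ee i) x *ᵥ S.lam x + S.Γ j x *ᵥ Dv S.lam (ee i) x)) +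
      S.Γ i x *ᵥ (Dv S.lam (ee j) x + S.Γ j x *ᵥ S.lam x) := by
  have hLam : DifferentiableAt ℝ S.Lam x := S.sm_Lam.differentiableAt hx
  have hl : DifferentiableAt ℝ S.lam x := S.smlam.differentiableAt hx
  have hΓ : DifferentiableAt ℝ (S.Γ j) x := (S.smΓ j).differentiableAt hx
  have hD : DifferentiableAt ℝ (fun y => Dv S.lam (ee j) y) x :=
    (S.smlam.Dv (ee j)).differentiableAt hx
  have hc : DifferentiableAt ℝ (fun _ : E4 => ee j) x := differentiableAt_const _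
  have h1 := S.nab_mulVec hLam hc (ee i)
  have hn1 : S.nab (fun _ : E4 => ee j) (ee i) x = S.Γ i x *ᵥ ee j := by
    rw [GB_nab, Dv_const, zero_add]
  have e : (fun y => S.Lam y *ᵥ ee j) = fun y => Dv S.lam (ee j) y + S.Γ j y *ᵥ S.lam y := by
    funext y
    rw [S.Lam_mulVec, GB_nab]
  have hM : DifferentiableAt ℝ (fun y => S.Γ j y *ᵥ S.lam y) x :=
    (contDiffAt_mulVec ((S.smΓ j).contDiffAt hx) (S.smlam.contDiffAt hx)).differentiableAt
      (by simp)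
  rw [hn1] at h1
  have hadd := Dv_add (f := fun y => Dv S.lam (ee j) y) (g := fun y => S.Γ j y *ᵥ S.lam y)
    (x := x) (v := ee i) hD hM
  rw [← h1, e, GB_nab, hadd, Dv_mulVec hΓ hl]

theorem ricci_lam {x : E4} (hx : x ≠ 0) (i j : Fin 3) :
    S.nabE S.Lam (ee i) x *ᵥ ee j - S.nabE S.Lam (ee j) x *ᵥ ee i
      = S.Riem i j x *ᵥ S.lam x := by
  have hc := commutator ((S.smlam.contDiffAt hx).of_le GB_two_le :
    ContDiffAt ℝ 2 S.lam x) i j
  have h1 := S.GB_nab_Lam hx i j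
  have h2 := S.GB_nab_Lam hx j i
  have h3 : S.Lam x *ᵥ (S.Γ i x *ᵥ ee j) - S.Lam x *ᵥ (S.Γ j x *ᵥ ee i) =
      ∑ k, (2 * eps i j k) • (Dv S.lam (ee k) x + S.Γ k x *ᵥ S.lam x) := by
    rw [← Matrix.mulVec_sub, GB_torsion S hx, Matrix.mulVec_sum]
    refine Finset.sum_congr rfl fun k _ => ?_
    rw [Matrix.mulVec_smul, S.Lam_mulVec, GB_nab]
  have h4 : ∑ k, (2 * eps i j k) • (Dv S.lam (ee k) x + S.Γ k x *ᵥ S.lam x) =
      ∑ k, (2 * eps i j k) • Dv S.lam (ee k) x +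
        (∑ k, (2 * eps i j k) • S.Γ k x) *ᵥ S.lam x := by
    rw [Matrix.sum_mulVec, ← Finset.sum_add_distrib]
    refine Finset.sum_congr rfl fun k _ => ?_
    rw [smul_add, Matrix.smul_mulVec]
  have e : S.nabE S.Lam (ee i) x *ᵥ ee j - S.nabE S.Lam (ee j) x *ᵥ ee i =
      (S.nabE S.Lam (ee i) x *ᵥ ee j + S.Lam x *ᵥ (S.Γ i x *ᵥ ee j)) -
      (S.nabE S.Lam (ee j) x *ᵥ ee i + S.Lam x *ᵥ (S.Γ j x *ᵥ ee i)) -
      (S.Lam x *ᵥ (S.Γ i x *ᵥ ee j) - S.Lam x *ᵥ (S.Γ j x *ᵥ ee i)) := by abel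
  rw [e, h1, h2, h3, h4, ← hc, Riem]
  simp only [Matrix.add_mulVec, Matrix.sub_mulVec, Matrix.mulVec_add, Matrix.mulVec_mulVec]
  abel

theorem GB_g_eq (x : E4) (u v : V3) : S.g x u v = ∑ j, v j * S.g x u (ee j) := by
  simp only [g, bil, Fin.sum_univ_three, dotProduct, Matrix.mulVec, ee, Pi.single_apply]
  simp
  ring

theorem GB_g_ext {x : E4} (hx : x ≠ 0) {u : V3} (h : ∀ j, S.g x u (ee j) = 0) : u = 0 := by
  refine S.g_nondeg hx fun v => ?_
  rw [GB_g_eq]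
  exact Finset.sum_eq_zero fun j _ => by rw [h j, mul_zero]

theorem GB_trace_od {x : E4} (hx : x ≠ 0) (u w : V3) (M : M3) :
    (S.od x u w * M).trace = S.g x w (M *ᵥ u) + S.g x u (M *ᵥ w) := by
  simp only [od, odot, Matrix.add_mul, Matrix.trace_add]
  have h : ∀ a b : V3, (vecMulVec a (S.G x *ᵥ b) * M).trace = S.g x b (M *ᵥ a) := by
    intro a b
    rw [Matrix.vecMulVec_mul, Matrix.trace_vecMulVec, dotProduct_comm, ← Matrix.dotProduct_mulVec,
      g, bil, dotProduct_comm, Matrix.dotProduct_mulVec, dotProduct_comm]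
    congr 1
    rw [← Matrix.mulVec_transpose, S.symm x hx]
  rw [h, h]

theorem LLam {x : E4} (hx : x ≠ 0) : S.L x * S.Lam x = S.Lam x * S.L x := by
  have key : ∀ i j, S.g x (S.Lam x *ᵥ ee i) (S.L x *ᵥ ee j) =
      S.g x (S.Lam x *ᵥ ee j) (S.L x *ᵥ ee i) := by
    intro i j
    have h := congrArg (fun M => (M * S.L x).trace) (S.ricci_L hx i j)
    simp only [Matrix.sub_mul, Matrix.trace_sub] at h
    have h0 : (S.Riem i j x * S.L x * S.L x).trace = (S.L x * S.Riem i j x * S.L x).trace := by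
      rw [Matrix.trace_mul_comm, ← Matrix.mul_assoc]
    rw [h0, sub_self, GB_trace_od S hx, GB_trace_od S hx] at h
    have e1 : ∀ a b : V3, S.g x b (S.L x *ᵥ a) = S.g x a (S.L x *ᵥ b) := by
      intro a b
      rw [← S.g_L hx, S.g_symm hx]
    rw [e1 (ee j) (S.Lam x *ᵥ ee i), e1 (ee i) (S.Lam x *ᵥ ee j)] at h
    rw [e1 (ee j) (S.Lam x *ᵥ ee i), e1 (ee i) (S.Lam x *ᵥ ee j)]
    linarith
  have hcol : ∀ i, S.L x *ᵥ (S.Lam x *ᵥ ee i) - S.Lam x *ᵥ (S.L x *ᵥ ee i) = 0 := by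
    intro i
    refine S.GB_g_ext hx fun j => ?_
    have h1 : S.g x (S.L x *ᵥ (S.Lam x *ᵥ ee i)) (ee j) =
        S.g x (S.Lam x *ᵥ ee i) (S.L x *ᵥ ee j) := S.g_L hx _ _
    have h2 : S.g x (S.Lam x *ᵥ (S.L x *ᵥ ee i)) (ee j) =
        S.g x (S.Lam x *ᵥ ee j) (S.L x *ᵥ ee i) := by
      rw [S.g_Lam hx, S.g_symm hx]
    have h3 : ∀ a b c : V3, S.g x (a - b) c = S.g x a c - S.g x b c := by
      intro a b c
      simp only [g, bil, sub_dotProduct]
    rw [h3, h1, h2, key i j, sub_self]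
  ext a i
  have h := congrFun (hcol i) a
  simp only [Pi.sub_apply, Pi.zero_apply, Matrix.mulVec_mulVec] at h
  have h5 : ∀ M : M3, (M *ᵥ ee i) a = M a i := by
    intro M
    simp [ee]
  rw [h5, h5] at h
  linarith

/-- eigenvectors of `L` are eigenvectors of `Lam` -/
theorem F1 {x : E4} (hx : x ≠ 0) {μ : ℝ} {z : V3} (hz : z ≠ 0) (h : S.L x *ᵥ z = μ • z) :
    ∃ θ : ℝ, S.Lam x *ᵥ z = θ • z := by
  have hsmul : ∀ (c : ℝ) (a b : V3), S.g x a (c • b) = c * S.g x a b := by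
    intro c a b
    simp only [g, bil, Matrix.mulVec_smul, dotProduct_smul, smul_eq_mul]
  have hsub : ∀ a b c : V3, S.g x a (b - c) = S.g x a b - S.g x a c := by
    intro a b c
    simp only [g, bil, Matrix.mulVec_sub, dotProduct_sub]
  have key : ∀ i j, S.g x (ee j) z * S.g x (S.Lam x *ᵥ ee i) z =
      S.g x (ee i) z * S.g x (S.Lam x *ᵥ ee j) z := by
    intro i j
    have h1 := congrArg (fun M => S.g x z (M *ᵥ z)) (S.ricci_L hx i j)
    simp only [Matrix.sub_mulVec] at h1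
    rw [hsub, hsub, S.g_od hx, S.g_od hx, ← Matrix.mulVec_mulVec, ← Matrix.mulVec_mulVec, h,
      Matrix.mulVec_smul, hsmul, ← S.g_L hx, h] at h1
    have h2 : S.g x (μ • z) (S.Riem i j x *ᵥ z) = μ * S.g x z (S.Riem i j x *ᵥ z) := by
      rw [S.g_symm hx, hsmul, S.g_symm hx]
    rw [h2, sub_self] at h1
    linarith
  obtain ⟨k, hk⟩ : ∃ k, S.g x (ee k) z ≠ 0 := by
    by_contra hcon
    push Not at hcon
    exact hz (S.GB_g_ext hx fun j => by rw [S.g_symm hx]; exact hcon j)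
  refine ⟨S.g x (S.Lam x *ᵥ ee k) z / S.g x (ee k) z, ?_⟩
  rw [← sub_eq_zero]
  refine S.GB_g_ext hx fun j => ?_
  rw [S.g_symm hx, hsub, hsmul, ← S.g_Lam hx]
  have := key j k
  field_simp
  linarith

end Geo

end Pool.Agent.helper68.B2
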