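import Mathlib
import Pool.Agent.helper68.B2.Defs
import Pool.Agent.helper25.B2.TDefs
import Pool.Agent.helper80.B2.W8

/-! # B2 module T8c: the root fields near a cyclic triple point -/

set_option autoImplicit false

namespace Pool.Agent.helper68.B2

open scoped ContDiff Topology Matrix
open Matrix Set Filter

/-! ### matrix algebra -/

theorem T8c_adj (N : M3) : N.adjugate =
    N * N - N.trace • N + ((N.trace * N.trace - (N * N).trace) / 2) • (1 : M3) := by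
  ext i j
  fin_cases i <;> fin_cases j <;>
    simp [Matrix.adjugate_fin_three, Matrix.mul_apply, Fin.sum_univ_three,
      Matrix.trace_fin_three] <;> ring

theorem T8c_g_symm (S : Geo) {x : E4} (hx : x ≠ 0) (v w : V3) : S.g x v w = S.g x w v := by
  unfold Geo.g bil
  rw [dotProduct_mulVec, ← mulVec_transpose, S.symm x hx, dotProduct_comm]

theorem T8c_g_add_left (S : Geo) (x : E4) (u v w : V3) :
    S.g x (u + v) w = S.g x u w + S.g x v w := by
  simp [Geo.g, bil, add_dotProduct]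

theorem T8c_g_sub_left (S : Geo) (x : E4) (u v w : V3) :
    S.g x (u - v) w = S.g x u w - S.g x v w := by
  simp [Geo.g, bil, sub_dotProduct]

theorem T8c_g_smul_left (S : Geo) (x : E4) (c : ℝ) (u w : V3) :
    S.g x (c • u) w = c * S.g x u w := by
  simp [Geo.g, bil, smul_dotProduct]

theorem T8c_g_add_right (S : Geo) (x : E4) (u v w : V3) :
    S.g x w (u + v) = S.g x w u + S.g x w v := by
  simp [Geo.g, bil, mulVec_add, dotProduct_add]

theorem T8c_g_sub_right (S : Geo) (x : E4) (u v w : V3) :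
    S.g x w (u - v) = S.g x w u - S.g x w v := by
  simp [Geo.g, bil, mulVec_sub, dotProduct_sub]

theorem T8c_g_smul_right (S : Geo) (x : E4) (c : ℝ) (u w : V3) :
    S.g x w (c • u) = c * S.g x w u := by
  simp [Geo.g, bil, mulVec_smul, dotProduct_smul]

theorem T8c_g_L (S : Geo) {x : E4} (hx : x ≠ 0) (v w : V3) :
    S.g x (S.L x *ᵥ v) w = S.g x v (S.L x *ᵥ w) := by
  rw [T8c_g_symm S hx]
  unfold Geo.g bil
  have h := S.selfadj x hx
  rw [mulVec_mulVec, mulVec_mulVec, dotProduct_mulVec, ← mulVec_transpose, h, dotProduct_comm]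

theorem T8c_N (S : Geo) (x : E4) (μ : ℝ) (v : V3) :
    (S.L x - μ • (1 : M3)) *ᵥ v = S.L x *ᵥ v - μ • v := by
  rw [sub_mulVec, smul_mulVec, one_mulVec]

theorem T8c_g_N (S : Geo) {x : E4} (hx : x ≠ 0) (μ : ℝ) (v w : V3) :
    S.g x ((S.L x - μ • (1 : M3)) *ᵥ v) w = S.g x v ((S.L x - μ • (1 : M3)) *ᵥ w) := by
  rw [T8c_N, T8c_N, T8c_g_sub_left, T8c_g_sub_right, T8c_g_smul_left, T8c_g_smul_right,
    T8c_g_L S hx]

theorem T8c_K (S : Geo) {x : E4} (μ : ℝ) (v : V3) :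
    S.K μ x *ᵥ v = (S.L x - μ • (1 : M3)) *ᵥ ((S.L x - μ • (1 : M3)) *ᵥ v)
      - (S.L x - μ • (1 : M3)).trace • ((S.L x - μ • (1 : M3)) *ᵥ v)
      + (((S.L x - μ • (1 : M3)).trace * (S.L x - μ • (1 : M3)).trace -
        ((S.L x - μ • (1 : M3)) * (S.L x - μ • (1 : M3))).trace) / 2) • v := by
  rw [Geo.K, T8c_adj, add_mulVec, sub_mulVec, smul_mulVec, smul_mulVec, one_mulVec,
    mulVec_mulVec]

theorem T8c_g_K (S : Geo) {x : E4} (hx : x ≠ 0) (μ : ℝ) (v w : V3) :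
    S.g x (S.K μ x *ᵥ v) w = S.g x v (S.K μ x *ᵥ w) := by
  rw [T8c_K, T8c_K, T8c_g_add_left, T8c_g_add_right, T8c_g_sub_left, T8c_g_sub_right,
    T8c_g_smul_left, T8c_g_smul_right, T8c_g_smul_left, T8c_g_smul_right, T8c_g_N S hx,
    T8c_g_N S hx, T8c_g_N S hx]

/-- the values of the form on the basis `A, NA, N²A` -/
theorem T8c_gram (S : Geo) {x : E4} (hx : x ≠ 0) {A : V3} (hA : IsCyc S x A) (μ : ℝ) :
    S.g x ((S.L x - μ • (1 : M3)) *ᵥ A) A = 0 ∧
    S.g x ((S.L x - μ • (1 : M3)) *ᵥ ((S.L x - μ • (1 : M3)) *ᵥ A)) A = 1 := by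
  have h1 : S.g x ((S.L x - μ • (1 : M3)) *ᵥ A) A = 0 := by
    rw [T8c_N, T8c_g_sub_left, T8c_g_smul_left, hA.aa, hA.la]; ring
  refine ⟨h1, ?_⟩
  rw [T8c_N S x μ (_ *ᵥ A), T8c_g_sub_left, T8c_g_smul_left, h1, T8c_N, T8c_g_L S hx,
    T8c_g_sub_left, T8c_g_smul_left, T8c_g_symm S hx A, hA.la, T8c_g_symm S hx (S.L x *ᵥ A),
    T8c_g_symm S hx _ (S.L x *ᵥ A)]
  have := hA.lla
  rw [T8c_g_L S hx] at this
  rw [this]; ring

theorem T8c_basis (S : Geo) {x : E4} (hx : x ≠ 0) {A : V3} (hA : IsCyc S x A) (μ : ℝ) {M : M3}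
    (h0 : M *ᵥ A = 0) (h1 : M *ᵥ ((S.L x - μ • (1 : M3)) *ᵥ A) = 0)
    (h2 : M *ᵥ ((S.L x - μ • (1 : M3)) *ᵥ ((S.L x - μ • (1 : M3)) *ᵥ A)) = 0) : M = 0 := by
  obtain ⟨e1, e2⟩ := T8c_gram S hx hA μ
  set N := S.L x - μ • (1 : M3) with hN
  set B := N *ᵥ A with hB
  set C := N *ᵥ B with hC
  have e3 : S.g x B B = 1 := by
    have h3 : S.g x B B = S.g x A C := T8c_g_N S hx μ A B
    rw [h3, T8c_g_symm S hx, e2]
  set Q : M3 := Matrix.of ![A, B, C] with hQ
  have hent : ∀ i j, (Q * S.G x * Qᵀ) i j = S.g x (Q i) (Q j) := by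
    intro i j
    rw [Matrix.mul_assoc, Matrix.mul_apply]
    unfold Geo.g bil dotProduct
    refine Finset.sum_congr rfl fun k _ => ?_
    congr 1
  have hdet : (Q * S.G x * Qᵀ).det = -1 := by
    rw [Matrix.det_fin_three]
    simp only [hent]
    have q0 : Q 0 = A := rfl
    have q1 : Q 1 = B := rfl
    have q2 : Q 2 = C := rfl
    rw [q0, q1, q2, hA.aa, e1, T8c_g_symm S hx A B, e1, e3, T8c_g_symm S hx A C, e2]
    ring
  have hQ0 : Q.det ≠ 0 := by
    intro h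
    rw [Matrix.det_mul, Matrix.det_mul, h] at hdet
    norm_num at hdet
  have hM : M * Qᵀ = 0 := by
    ext i j
    have : (M * Qᵀ) i j = (M *ᵥ Q j) i := rfl
    rw [this]
    fin_cases j
    · exact congrFun h0 i
    · exact congrFun h1 i
    · exact congrFun h2 i
  have hu : IsUnit Qᵀ.det := by rw [det_transpose]; exact isUnit_iff_ne_zero.2 hQ0
  calc M = M * (Qᵀ * (Qᵀ)⁻¹) := by rw [mul_nonsing_inv _ hu, mul_one]
    _ = 0 := by rw [← mul_assoc, hM, zero_mul]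

/-- `adj (L - μ) = T ⊗ T♭` with `T = adj (L - μ) A` for every eigenvalue `μ` at a point with a principal
null vector, and the pairing with `A` is `1` -/
theorem J3_adj (S : Geo) {x : E4} (hx : x ≠ 0) {A : V3} (hA : IsCyc S x A) {μ : ℝ}
    (hμ : (S.L x - μ • (1 : M3)).det = 0) :
    S.K μ x = vecMulVec (S.K μ x *ᵥ A) (S.G x *ᵥ (S.K μ x *ᵥ A)) ∧
      S.g x (S.K μ x *ᵥ A) A = 1 := by
  obtain ⟨e1, e2⟩ := T8c_gram S hx hA μ
  have hTA : S.g x (S.K μ x *ᵥ A) A = 1 := by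
    rw [T8c_K, T8c_g_add_left, T8c_g_sub_left, T8c_g_smul_left, T8c_g_smul_left, e1, e2, hA.aa]
    ring
  have hKN : ∀ v, S.K μ x *ᵥ ((S.L x - μ • (1 : M3)) *ᵥ v) = 0 := by
    intro v
    rw [mulVec_mulVec, Geo.K, Matrix.adjugate_mul, hμ, zero_smul, zero_mulVec]
  have hv : ∀ v, vecMulVec (S.K μ x *ᵥ A) (S.G x *ᵥ (S.K μ x *ᵥ A)) *ᵥ v =
      S.g x (S.K μ x *ᵥ A) v • (S.K μ x *ᵥ A) := by
    intro v
    rw [T8c_g_symm S hx]
    ext i
    simp only [Geo.g, bil, mulVec, dotProduct, vecMulVec_apply, Pi.smul_apply, smul_eq_mul,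
      Finset.sum_mul, Fin.sum_univ_three]
    ring
  refine ⟨?_, hTA⟩
  rw [← sub_eq_zero]
  refine T8c_basis S hx hA μ ?_ ?_ ?_
  · rw [sub_mulVec, hv, hTA, one_smul, sub_self]
  · rw [sub_mulVec, hv, hKN, T8c_g_K S hx, hKN]
    simp [Geo.g, bil]
  · rw [sub_mulVec, hv, hKN, T8c_g_K S hx, hKN]
    simp [Geo.g, bil]

/-! ### the roots -/

theorem T8c_char (L : M3) (t : ℝ) : (t • (1 : M3) - L).det =
    t ^ 3 - L.trace * t ^ 2 + ((L.trace ^ 2 - (L * L).trace) / 2) * t - L.det := by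
  have h01 : ((0 : Fin 3) = 1) = False := by decide
  have h02 : ((0 : Fin 3) = 2) = False := by decide
  have h12 : ((1 : Fin 3) = 2) = False := by decide
  have h10 : ((1 : Fin 3) = 0) = False := by decide
  have h20 : ((2 : Fin 3) = 0) = False := by decide
  have h21 : ((2 : Fin 3) = 1) = False := by decide
  simp only [Matrix.det_fin_three, Matrix.sub_apply, Matrix.smul_apply, Matrix.one_apply,
    smul_eq_mul, h01, h02, h12, h10, h20, h21, if_true, if_false, Matrix.trace_fin_three,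
    Matrix.mul_apply, Fin.sum_univ_three]
  ring

theorem T8c_coef {L : M3} {a b c : ℝ} (h : RR3 L a b c) :
    L.trace = a + b + c ∧ (L * L).trace = a ^ 2 + b ^ 2 + c ^ 2 ∧ L.det = a * b * c := by
  have h0 := h 0
  have h1 := h 1
  have h2 := h (-1)
  rw [T8c_char] at h0 h1 h2
  have hd : L.det = a * b * c := by linarith
  have ht : L.trace = a + b + c := by linarith
  refine ⟨ht, ?_, hd⟩
  rw [ht, hd] at h1
  linarith

theorem T8c_RR3_perm {L : M3} {a b c : ℝ} (h : RR3 L a b c) : RR3 L b a c ∧ RR3 L c b a := by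
  constructor <;> intro t <;> rw [h t] <;> ring

/-- the adjugate in terms of the other two roots -/
theorem T8c_K_roots (S : Geo) {x : E4} {a b c : ℝ} (h : RR3 (S.L x) a b c) :
    S.K a x = S.L x * S.L x - (b + c) • S.L x + (b * c) • (1 : M3) := by
  obtain ⟨h1, h2, -⟩ := T8c_coef h
  have e1 : (S.L x - a • (1 : M3)).trace = b + c - 2 * a := by
    rw [trace_sub, trace_smul, trace_one, h1]; simp; ring
  have e3 : (S.L x - a • (1 : M3)) * (S.L x - a • (1 : M3)) =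
      S.L x * S.L x - (2 * a) • S.L x + (a ^ 2) • (1 : M3) := by
    rw [sub_mul, mul_sub, mul_sub, smul_mul_assoc, mul_smul_comm, smul_mul_assoc, mul_smul_comm,
      mul_one, one_mul, mul_one, smul_smul]
    module
  have e2 : ((S.L x - a • (1 : M3)) * (S.L x - a • (1 : M3))).trace =
      a ^ 2 + b ^ 2 + c ^ 2 - 2 * a * (a + b + c) + 3 * a ^ 2 := by
    rw [e3, trace_add, trace_sub, trace_smul, trace_smul, trace_one, h1, h2]; simp; ring
  rw [Geo.K, T8c_adj, e1, e2, e3]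
  module

theorem T8c_det (S : Geo) {x : E4} {a b c : ℝ} (h : RR3 (S.L x) a b c) :
    (S.L x - a • (1 : M3)).det = 0 := by
  have h1 := h a
  rw [sub_self, zero_mul, zero_mul, ← neg_sub, Matrix.det_neg] at h1
  simpa using h1

/-- partial fractions: `A = Σ T_i / g(T_i,T_i)` where the roots are distinct -/
theorem J3_sum (S : Geo) {x : E4} (hx : x ≠ 0) {A : V3} (hA : IsCyc S x A) {r₁ r₂ r₃ : ℝ}
    (hr : RR3 (S.L x) r₁ r₂ r₃) (h12 : r₁ ≠ r₂) (h13 : r₁ ≠ r₃) (h23 : r₂ ≠ r₃) :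
    A = (1 / ((r₁ - r₂) * (r₁ - r₃))) • (S.K r₁ x *ᵥ A) + (1 / ((r₂ - r₁) * (r₂ - r₃))) • (S.K r₂ x *ᵥ A)
      + (1 / ((r₃ - r₁) * (r₃ - r₂))) • (S.K r₃ x *ᵥ A) := by
  rw [T8c_K_roots S hr, T8c_K_roots S (T8c_RR3_perm hr).1, T8c_K_roots S (T8c_RR3_perm hr).2]
  simp only [add_mulVec, sub_mulVec, smul_mulVec, one_mulVec]
  set B := S.L x *ᵥ A
  set C := (S.L x * S.L x) *ᵥ A
  have d12 : r₁ - r₂ ≠ 0 := sub_ne_zero.2 h12
  have d13 : r₁ - r₃ ≠ 0 := sub_ne_zero.2 h13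
  have d23 : r₂ - r₃ ≠ 0 := sub_ne_zero.2 h23
  have d21 : r₂ - r₁ ≠ 0 := sub_ne_zero.2 h12.symm
  have d31 : r₃ - r₁ ≠ 0 := sub_ne_zero.2 h13.symm
  have d32 : r₃ - r₂ ≠ 0 := sub_ne_zero.2 h23.symm
  ext i
  simp only [Pi.add_apply, Pi.sub_apply, Pi.smul_apply, smul_eq_mul]
  have e21 : r₂ - r₁ = -(r₁ - r₂) := by ring
  have e31 : r₃ - r₁ = -(r₁ - r₃) := by ring
  have e32 : r₃ - r₂ = -(r₂ - r₃) := by ring
  rw [e21, e31, e32]
  field_simp
  ring

/-! ### the differential of the discriminant-like function -/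

/-- `F = (3 tr L² - (tr L)²)/2` -/
noncomputable def T8c_F (S : Geo) (x : E4) : ℝ :=
  (3 * (S.L x * S.L x).trace - (S.L x).trace ^ 2) / 2

theorem T8c_two_le : (2 : WithTop ℕ∞) ≤ ∞ := by
  norm_cast

theorem T8c_smF (S : Geo) : ContDiffOn ℝ ∞ (T8c_F S) {0}ᶜ := by
  have h : ∀ i j, ContDiffOn ℝ ∞ (fun x => S.L x i j) {0}ᶜ := by
    intro i j
    let e : M3 →L[ℝ] ℝ := LinearMap.toContinuousLinearMap
      { toFun := fun M => M i j, map_add' := fun _ _ => rfl, map_smul' := fun _ _ => rfl }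
    exact e.contDiff.comp_contDiffOn S.smL
  unfold T8c_F
  simp only [Matrix.trace_fin_three, Matrix.mul_apply, Fin.sum_univ_three]
  have h00 := h 0 0
  have h01 := h 0 1
  have h02 := h 0 2
  have h10 := h 1 0
  have h11 := h 1 1
  have h12 := h 1 2
  have h20 := h 2 0
  have h21 := h 2 1
  have h22 := h 2 2
  fun_prop

theorem T8c_F_roots (S : Geo) {x : E4} {a b c : ℝ} (h : RR3 (S.L x) a b c) :
    T8c_F S x = ((a - b) ^ 2 + (b - c) ^ 2 + (a - c) ^ 2) / 2 := by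
  obtain ⟨h1, h2, -⟩ := T8c_coef h
  rw [T8c_F, h1, h2]
  ring

theorem T8c_Dv_sum {F : Type*} [NormedAddCommGroup F] [NormedSpace ℝ F] (f : E4 → F) (v : V3)
    (x : E4) : Dv f v x = ∑ i, v i • Dv f (ee i) x := by
  have h : ∀ i, fld (ee i) x = J i x := by
    intro i
    unfold fld ee
    rw [Finset.sum_eq_single i]
    · simp
    · intro j _ hj
      simp [hj]
    · simp
  unfold Dv
  simp only [h]
  rw [fld, map_sum]
  simp

theorem T8c_g_sum (S : Geo) (x : E4) (v w : V3) : S.g x v w = ∑ i, v i * S.g x (ee i) w := by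
  unfold Geo.g bil ee
  simp only [single_one_dotProduct]
  rfl

theorem T8c_tr_odot (S : Geo) {x : E4} (hx : x ≠ 0) (u w : V3) :
    (odot (S.G x) u w).trace = 2 * S.g x u w := by
  have h1 : ∀ a b : V3, (vecMulVec a (S.G x *ᵥ b)).trace = S.g x a b := by
    intro a b
    simp [Matrix.trace, vecMulVec_apply, Geo.g, bil, dotProduct]
  rw [odot, trace_add, h1, h1, T8c_g_symm S hx w u]
  ring

theorem T8c_tr_L_odot (S : Geo) {x : E4} (hx : x ≠ 0) (u w : V3) :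
    (S.L x * odot (S.G x) u w).trace = 2 * S.g x u (S.L x *ᵥ w) := by
  have h1 : ∀ a b : V3, (S.L x * vecMulVec a (S.G x *ᵥ b)).trace = S.g x (S.L x *ᵥ a) b := by
    intro a b
    rw [mul_vecMulVec]
    simp [Matrix.trace, vecMulVec_apply, Geo.g, bil, dotProduct]
  rw [odot, mul_add, trace_add, h1, h1, T8c_g_L S hx, T8c_g_symm S hx (S.L x *ᵥ w) u]
  ring

theorem T8c_tr_D (S : Geo) {x : E4} (hx : x ≠ 0) (v : V3) :
    (Dv S.L v x).trace = 2 * S.g x (S.lam x) v ∧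
      (S.L x * Dv S.L v x).trace = 2 * S.g x (S.L x *ᵥ S.lam x) v := by
  have hm : ∀ i, Dv S.L (ee i) x = odot (S.G x) (ee i) (S.lam x)
      - (S.Γ i x * S.L x - S.L x * S.Γ i x) := fun i => eq_sub_of_add_eq (S.main x hx i)
  have h1 : ∀ i, (Dv S.L (ee i) x).trace = 2 * S.g x (ee i) (S.lam x) := by
    intro i
    rw [hm i, trace_sub, trace_sub, T8c_tr_odot S hx, trace_mul_comm]
    ring
  have h2 : ∀ i, (S.L x * Dv S.L (ee i) x).trace = 2 * S.g x (ee i) (S.L x *ᵥ S.lam x) := by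
    intro i
    rw [hm i, mul_sub, trace_sub, T8c_tr_L_odot S hx, mul_sub, trace_sub]
    have h3 : (S.L x * (S.Γ i x * S.L x)).trace = (S.L x * (S.L x * S.Γ i x)).trace := by
      rw [← mul_assoc, trace_mul_comm]
    rw [h3]
    ring
  constructor
  · rw [T8c_Dv_sum, T8c_g_symm S hx, T8c_g_sum S x v, trace_sum, Finset.mul_sum]
    refine Finset.sum_congr rfl fun i _ => ?_
    rw [trace_smul, h1, smul_eq_mul]
    ring
  · rw [T8c_Dv_sum, T8c_g_symm S hx, T8c_g_sum S x v, Finset.mul_sum, trace_sum, Finset.mul_sum]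
    refine Finset.sum_congr rfl fun i _ => ?_
    rw [mul_smul_comm, trace_smul, h2, smul_eq_mul]
    ring

theorem T8c_dF (S : Geo) {x : E4} (hx : x ≠ 0) (v : V3) :
    Dv (T8c_F S) v x = 6 * S.g x (S.L x *ᵥ S.lam x) v
      - 2 * (S.L x).trace * S.g x (S.lam x) v := by
  let tr : M3 →L[ℝ] ℝ := LinearMap.toContinuousLinearMap (Matrix.traceLinearMap (Fin 3) ℝ ℝ)
  have hL : HasFDerivAt S.L (fderiv ℝ S.L x) x :=
    ((S.smL.contDiffAt (isOpen_compl_singleton.mem_nhds hx)).differentiableAt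
      (by simp)).hasFDerivAt
  have h1 : HasFDerivAt (fun y => (S.L y).trace) (tr.comp (fderiv ℝ S.L x)) x :=
    tr.hasFDerivAt.comp x hL
  have hLL : HasFDerivAt (fun y => S.L y * S.L y)
      (S.L x • fderiv ℝ S.L x + (fderiv ℝ S.L x).smulRight (S.L x)) x := hL.mul' hL
  have h2 : HasFDerivAt (fun y => (S.L y * S.L y).trace)
      (tr.comp (S.L x • fderiv ℝ S.L x + (fderiv ℝ S.L x).smulRight (S.L x))) x :=
    tr.hasFDerivAt.comp x hLL
  have h3a := h2.const_mul (3 : ℝ)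
  have h3b : HasFDerivAt (fun y => (S.L y).trace ^ 2) _ x := HasFDerivAt.pow h1 2
  have h3c := h3a.fun_sub h3b
  have h3 : HasFDerivAt (𝕜 := ℝ) (fun y => (1 / 2 : ℝ) * (3 * (S.L y * S.L y).trace - (S.L y).trace ^ 2)) _ x :=
    h3c.const_mul (1 / 2 : ℝ)
  have hF : T8c_F S = fun y => (1 / 2 : ℝ) * (3 * (S.L y * S.L y).trace - (S.L y).trace ^ 2) := by
    funext y
    unfold T8c_F
    ring
  obtain ⟨e1, e2⟩ := T8c_tr_D S hx v
  have e3 : (Dv S.L v x * S.L x).trace = 2 * S.g x (S.L x *ᵥ S.lam x) v := by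
    rw [trace_mul_comm, e2]
  have h5 : Dv (T8c_F S) v x = 1 / 2 * (3 * (S.L x * Dv S.L v x + Dv S.L v x * S.L x).trace
      - 2 * (S.L x).trace * (Dv S.L v x).trace) := by
    unfold Dv
    have htr : ∀ M : M3, tr M = M.trace := fun _ => rfl
    rw [hF, h3.fderiv]
    simp only [_root_.smul_apply, _root_.sub_apply,
      ContinuousLinearMap.comp_apply, _root_.add_apply, htr,
      ContinuousLinearMap.smulRight_apply, smul_eq_mul, trace_add, nsmul_eq_mul, pow_one,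
      Nat.cast_ofNat, Nat.add_one_sub_one, Nat.reduceSub]
    rfl
  rw [h5, trace_add, e1, e2, e3]
  ring

theorem T8c_bdd {f : E4 → ℝ} {p : E4} (h : ContinuousAt f p) :
    ∃ M : ℝ, 0 ≤ M ∧ ∀ᶠ x in 𝓝 p, |f x| ≤ M := by
  refine ⟨|f p| + 1, by positivity, ?_⟩
  have h1 : ContinuousAt (fun x => |f x|) p := h.abs
  filter_upwards [h1.eventually_lt_const (lt_add_one |f p|)] with x hx
  exact hx.le

/-- the key identity -/
theorem T8c_key (S : Geo) {x : E4} (hx : x ≠ 0) (A : V3) {a b c : ℝ} (h : RR3 (S.L x) a b c) :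
    6 * S.g x (S.lam x) (S.K a x *ᵥ A) =
      Dv (T8c_F S) (S.L x *ᵥ A - b • A) x
        - 2 * (2 * c - a - b) * S.g x (S.lam x) (S.L x *ᵥ A - b • A) := by
  obtain ⟨h1, -, -⟩ := T8c_coef h
  have hK : S.K a x *ᵥ A = S.L x *ᵥ (S.L x *ᵥ A - b • A) - c • (S.L x *ᵥ A - b • A) := by
    rw [T8c_K_roots S h, add_mulVec, sub_mulVec, smul_mulVec, smul_mulVec, one_mulVec,
      mulVec_sub, mulVec_mulVec, mulVec_smul]
    module
  rw [T8c_dF S hx, hK, h1, T8c_g_sub_right, T8c_g_smul_right, T8c_g_L S hx]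
  ring

/-- the estimate of the smallest root field near a cyclic triple point -/
theorem J3_estimate (S : Geo) (hRR : ∀ x, x ≠ 0 → ∃ r₁ r₂ r₃ : ℝ, RR3 (S.L x) r₁ r₂ r₃) {p : E4}
    (hp : p ≠ 0) {W : Set E4} (hW : OCone W) (hpW : p ∈ W)
    {A : E4 → V3} (hA : Hom A) (hs : ContDiffOn ℝ ∞ A W) (hc : ∀ x ∈ W, IsCyc S x (A x)) :
    ∃ C : ℝ, ∀ᶠ x in 𝓝 p, ∀ r₁ r₂ r₃ : ℝ, RR3 (S.L x) r₁ r₂ r₃ → r₁ ≤ r₂ → r₂ ≤ r₃ →
      |S.g x (S.lam x) (S.K r₁ x *ᵥ A x)| ≤ C * (r₃ - r₁) := by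
  -- continuity
  have hpm : ({0}ᶜ : Set E4) ∈ 𝓝 p := isOpen_compl_singleton.mem_nhds hp
  have cA : ContinuousAt A p := hs.continuousOn.continuousAt (hW.isOpen.mem_nhds hpW)
  have cL : ContinuousAt S.L p := S.smL.continuousOn.continuousAt hpm
  have clam : ContinuousAt S.lam p := S.smlam.continuousOn.continuousAt hpm
  have cG : ContinuousAt S.G p := S.smG.continuousOn.continuousAt hpm
  have cAi : ∀ i, ContinuousAt (fun x => A x i) p := fun i => continuousAt_pi.1 cA i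
  have clami : ∀ i, ContinuousAt (fun x => S.lam x i) p := fun i => continuousAt_pi.1 clam i
  have cLij : ∀ i j, ContinuousAt (fun x => S.L x i j) p := by
    intro i j
    let e : M3 →L[ℝ] ℝ := LinearMap.toContinuousLinearMap
      { toFun := fun M => M i j, map_add' := fun _ _ => rfl, map_smul' := fun _ _ => rfl }
    exact e.continuous.continuousAt.comp cL
  have cGij : ∀ i j, ContinuousAt (fun x => S.G x i j) p := by
    intro i j
    let e : M3 →L[ℝ] ℝ := LinearMap.toContinuousLinearMap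
      { toFun := fun M => M i j, map_add' := fun _ _ => rfl, map_smul' := fun _ _ => rfl }
    exact e.continuous.continuousAt.comp cG
  have cLA : ∀ i, ContinuousAt (fun x => (S.L x *ᵥ A x) i) p := by
    intro i
    simp only [mulVec, dotProduct]
    exact tendsto_finsetSum _ fun j _ => (cLij i j).mul (cAi j)
  have cg : ∀ V : E4 → V3, (∀ i, ContinuousAt (fun x => V x i) p) →
      ContinuousAt (fun x => S.g x (S.lam x) (V x)) p := by
    intro V hV
    unfold Geo.g bil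
    simp only [mulVec, dotProduct]
    exact tendsto_finsetSum _ fun i _ => (clami i).mul
      (tendsto_finsetSum _ fun j _ => (cGij i j).mul (hV j))
  have cf : ∀ V : E4 → V3, (∀ i, ContinuousAt (fun x => V x i) p) →
      ContinuousAt (fun x => ‖fld (V x) x‖) p := by
    intro V hV
    unfold fld
    exact (tendsto_finsetSum _ fun i _ => (hV i).smul (J i).continuous.continuousAt).norm
  have ctr : ContinuousAt (fun x => (S.L x * S.L x).trace) p := by
    simp only [Matrix.trace, Matrix.mul_apply, Matrix.diag_apply]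
    exact tendsto_finsetSum _ fun i _ => tendsto_finsetSum _ fun j _ => (cLij i j).mul (cLij j i)
  -- bounds
  obtain ⟨M1, hM1, b1⟩ := T8c_bdd (cg _ cLA)
  obtain ⟨M2, hM2, b2⟩ := T8c_bdd (cg _ cAi)
  obtain ⟨M3, hM3, b3⟩ := T8c_bdd ctr
  obtain ⟨M4, hM4, b4⟩ := T8c_bdd (cf _ cLA)
  obtain ⟨M5, hM5, b5⟩ := T8c_bdd (cf _ cAi)
  obtain ⟨C0, hC0, W0, hW0, hW0U, hsq⟩ := W8_sq (T8c_F S) {0}ᶜ isOpen_compl_singleton
    ((T8c_smF S).of_le T8c_two_le) (fun x hx => by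
      obtain ⟨a, b, c, h⟩ := hRR x hx
      rw [T8c_F_roots S h]
      positivity) p hp
  refine ⟨(Real.sqrt C0 * (M4 + (1 + M3) * M5) + 4 * (M1 + (1 + M3) * M2)) / 6, ?_⟩
  filter_upwards [b1, b2, b3, b4, b5, hW0, hpm] with x h1 h2 h3 h4 h5 h6 hx r₁ r₂ r₃ hr h12 h23
  have hx0 : x ≠ 0 := hx
  obtain ⟨e1, e2, -⟩ := T8c_coef hr
  have hD : 0 ≤ r₃ - r₁ := by linarith
  -- the middle root is bounded
  have hr2 : |r₂| ≤ 1 + M3 := by
    rw [e2] at h3
    have h7 : r₂ ^ 2 ≤ M3 := by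
      have := (abs_le.1 h3).2
      nlinarith [sq_nonneg r₁, sq_nonneg r₃]
    have h8 : |r₂| ≤ 1 + r₂ ^ 2 := by
      rw [← sq_abs]
      nlinarith [sq_nonneg (|r₂| - 1), abs_nonneg r₂]
    linarith
  set V := S.L x *ᵥ A x - r₂ • A x with hV
  have hgV : |S.g x (S.lam x) V| ≤ M1 + (1 + M3) * M2 := by
    rw [hV, T8c_g_sub_right, T8c_g_smul_right]
    refine (abs_sub _ _).trans (add_le_add h1 ?_)
    rw [abs_mul]
    exact mul_le_mul hr2 h2 (abs_nonneg _) (by linarith)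
  have hfV : ‖fld V x‖ ≤ M4 + (1 + M3) * M5 := by
    have h7 : fld V x = fld (S.L x *ᵥ A x) x - r₂ • fld (A x) x := by
      unfold fld
      rw [Finset.smul_sum, ← Finset.sum_sub_distrib]
      refine Finset.sum_congr rfl fun i _ => ?_
      rw [hV, Pi.sub_apply, Pi.smul_apply, smul_eq_mul, sub_smul, smul_smul]
    rw [h7]
    refine (norm_sub_le _ _).trans (add_le_add ((le_abs_self _).trans h4) ?_)
    rw [norm_smul, Real.norm_eq_abs]
    exact mul_le_mul hr2 ((le_abs_self _).trans h5) (norm_nonneg _) (by linarith)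
  have hF : T8c_F S x ≤ (r₃ - r₁) ^ 2 := by
    rw [T8c_F_roots S hr]
    nlinarith [mul_nonneg (sub_nonneg.2 h12) (sub_nonneg.2 h23)]
  have hdF : ‖fderiv ℝ (T8c_F S) x‖ ≤ Real.sqrt C0 * (r₃ - r₁) := by
    have h7 := hsq x h6
    have h8 : ‖fderiv ℝ (T8c_F S) x‖ ^ 2 ≤ (Real.sqrt C0 * (r₃ - r₁)) ^ 2 := by
      rw [mul_pow, Real.sq_sqrt hC0.le]
      exact h7.trans (mul_le_mul_of_nonneg_left hF hC0.le)
    exact le_of_sq_le_sq h8 (by positivity)
  have hDv : |Dv (T8c_F S) V x| ≤ Real.sqrt C0 * (r₃ - r₁) * (M4 + (1 + M3) * M5) := by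
    unfold Dv
    rw [← Real.norm_eq_abs]
    refine ((fderiv ℝ (T8c_F S) x).le_opNorm _).trans ?_
    exact mul_le_mul hdF hfV (norm_nonneg _) (by positivity)
  have hkey := T8c_key S hx0 (A x) hr
  rw [← hV] at hkey
  have h9 : |2 * (2 * r₃ - r₁ - r₂) * S.g x (S.lam x) V| ≤
      4 * (r₃ - r₁) * (M1 + (1 + M3) * M2) := by
    rw [abs_mul]
    refine mul_le_mul ?_ hgV (abs_nonneg _) (by positivity)
    rw [abs_of_nonneg (by linarith)]
    linarith
  have h10 : |6 * S.g x (S.lam x) (S.K r₁ x *ᵥ A x)| ≤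
      Real.sqrt C0 * (r₃ - r₁) * (M4 + (1 + M3) * M5) +
        4 * (r₃ - r₁) * (M1 + (1 + M3) * M2) := by
    rw [hkey]
    exact (abs_sub _ _).trans (add_le_add hDv h9)
  rw [abs_mul, abs_of_pos (by norm_num : (0 : ℝ) < 6)] at h10
  linarith

end Pool.Agent.helper68.B2
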